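import Pool.Agent.Lib.MP_412417_pr.V.VF2

/-!
# Asymptotic conformal covariance of the crossing probabilities of Boolean percolation

`MP412.P r n K A B` is the crossing probability of the problem: the probability that a connected
component of `Ŵ_r ∩ nK` meets `nA` and `nB`. `MP412.Pdens ρ M r n K A B` is the crossing probability
of `K` from `A` to `B` in the Boolean model of density `ρ` at scale `n`: Poisson centres of intensity
`(n ρ(x))² dx` on `M` and discs of radius `r / (n ρ(x))`.

Let the domain `L` be a finite union of pieces (`MP412.Piece`), for example of convex bodies. For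
every radius `r` (so also for the critical radius) and every map `φ` conformal near `L`, with inverse
`ψ`, the crossing probability of the conformal image `φ(L)` in the Boolean model of density `|ψ'|`
differs from that of `nL` in the homogeneous model by at most `C / n`.
-/

set_option autoImplicit false

open MeasureTheory Set
open scoped ENNReal Pointwise

namespace Pool.Agent.Results.MP_412417_pr.ConformalCovariance

open MP412

/-- Asymptotic conformal covariance of Boolean percolation, with the rate `1 / n`. -/
theorem result (r : ℝ) (hr : 0 < r) (G : Set ℂ) (hG : IsOpen G) (φ ψ : ℂ → ℂ)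
    (hφ : DifferentiableOn ℂ φ G) (hφ' : ∀ z ∈ G, deriv φ z ≠ 0) (hψ : ∀ z ∈ G, ψ (φ z) = z)
    {ι : Type} [Finite ι] (K : ι → Set ℂ) (hK : ∀ i, Piece (K i)) (N : Set ℂ)
    (hN : IsCompact N) (hKN : (⋃ i, K i) ⊆ interior N) (hNG : N ⊆ G)
    (A B : Set ℂ) (hA : IsClosed A) (hAK : A ⊆ frontier (⋃ i, K i)) (hB : IsClosed B)
    (hBK : B ⊆ frontier (⋃ i, K i)) :
    ∃ C : ℝ, ∀ n : ℝ, 1 ≤ n →
      |Pdens (fun w => ‖deriv ψ w‖) (φ '' N) r n (φ '' ⋃ i, K i) (φ '' A) (φ '' B) -
        P r n (⋃ i, K i) A B| ≤ C / n :=
  MP412.vmain r hr G hG φ ψ hφ hφ' hψ K hK N hN hKN hNG A B hA hAK hB hBK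

end Pool.Agent.Results.MP_412417_pr.ConformalCovariance
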